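import Pool.Agent.MP_8b9287_co.Geo.All

namespace Pool.Agent.Results.MP_8b9287_co.Geometric

open Pool.Agent.MP_8b9287_co.Geo

theorem result (n k : ℕ) (hk : 0 < k) (hkn : k < n)
    (d : Matroid (Fin n) → (Fin k → ℕ) → ℤ)
    (hgeo : ∀ (M : Matroid (Fin n)) (X : Fin k → Fin n → ℂ), OfRank k M → Represents X M →
      ∀ η : Fin k → ℕ, IsShape n η → GenCount X η (d M (cpl n η)))
    (hval : ∀ η : Fin k → ℕ, IsShape n η →
      Valuative k (fun M => d M (cpl n η)) ∨
        Valuative k (Set.indicator {M | Conn M} fun M => d M (cpl n η)))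
    (M : Matroid (Fin n)) (hM : OfRank k M)
    (hpav : ∀ C : Set (Fin n), M.IsCircuit C → (k : ℕ∞) ≤ C.encard)
    (η : Fin k → ℕ) (hη : IsShape n η) (hrow : η ⟨0, hk⟩ = n - k) :
    0 ≤ d M (cpl n η) := by
  obtain ⟨c, rfl⟩ : ∃ c, k = c + 1 := ⟨k - 1, by omega⟩
  refine main_geo n c hkn (fun M => d M (cpl n η)) η (fun M X a b => hgeo M X a b η hη)
    (hval η hη) M hM (fun I hI => ?_) hη hrow
  by_contra hc
  obtain ⟨C, hC, hC'⟩ := ((Matroid.not_indep_iff (by rw [hM.1]; exact Set.subset_univ _)).1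
    hc).exists_isCircuit_subset
  have h1 := (hpav C hC').trans (Set.encard_le_encard hC)
  rw [Set.encard_coe_eq_coe_finsetCard] at h1
  have : c + 1 ≤ I.card := by exact_mod_cast h1
  omega

end Pool.Agent.Results.MP_8b9287_co.Geometric
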