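import Pool.Agent.Mg.F8b9287.Gbf9237

namespace Pool.Agent.Results.MP_8b9287_co.PavingNonneg

open Pool.Agent.MP_8b9287_co

theorem result (N k : ℕ) (hk : 0 < k) (hkn : k < N + 1) (M : Matroid (Fin (N + 1)))
    (hE : M.E = Set.univ) (hrank : M.eRank = k)
    (hpav : ∀ C : Set (Fin (N + 1)), M.IsCircuit C → (k : ℕ∞) ≤ C.encard)
    (η : Fin k → ℕ) (hη : Antitone η) (hrow : η ⟨0, hk⟩ = N + 1 - k) (hsize : ∑ i, η i = N) :
    ∃ d : ℕ, ∀ t : Fin (N + 1) → ℚ, Function.Injective t → locSum M η t = d := by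
  obtain ⟨κ, rfl⟩ : ∃ κ, k = κ + 1 := ⟨k - 1, by omega⟩
  refine main_paving (by omega) ⟨hE, hrank, fun I hI => ?_⟩ η hη (hrow.trans (by omega)) hsize
  by_contra hc
  obtain ⟨C, hC, hC'⟩ := ((Matroid.not_indep_iff (by rw [hE]; exact Set.subset_univ _)).1
    hc).exists_isCircuit_subset
  have h1 := (hpav C hC').trans (Set.encard_le_encard hC)
  rw [Set.encard_coe_eq_coe_finsetCard, hI] at h1
  have : κ + 1 ≤ κ := by exact_mod_cast h1
  omega

end Pool.Agent.Results.MP_8b9287_co.PavingNonneg
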